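import Mathlib
import Pool.Agent.H.MP_d352c9_an.B

set_option autoImplicit false

open Filter MeasureTheory Topology MvPolynomial

namespace Pool.Agent.Results.MP_d352c9_an.NoLimit

/-- the average `A_N(x)` -/
noncomputable def avg {X : Type} (T : X → X) (F : X → ℂ) (P : MvPolynomial (Fin 2) ℤ) (x : X)
    (N : ℕ) : ℂ :=
  (∑ m ∈ Finset.Icc 1 N, ∑ n ∈ Finset.Icc 1 N,
    F (T^[ArithmeticFunction.cardFactors (eval ![(m : ℤ), (n : ℤ)] P).toNat] x)) / (N : ℂ) ^ 2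

theorem result :
    ∃ (Y : Type) (_ : MetricSpace Y) (_ : CompactSpace Y) (_ : MeasurableSpace Y)
      (_ : BorelSpace Y) (T : Y → Y) (F : C(Y, ℂ)),
      Continuous T ∧
      (∃! μ : Measure Y, IsProbabilityMeasure μ ∧ μ.map T = μ) ∧
      (∀ (a b : ℕ) (Q P : MvPolynomial (Fin 2) ℤ), 1 ≤ a →
        P = ((C (a : ℤ) * X 0 + C (b : ℤ) * X 1) * Q) ^ 2 →
        (∀ m n : ℕ, 1 ≤ m → 1 ≤ n → 0 < eval ![(m : ℤ), (n : ℤ)] P) →
        ∃ x : Y, ¬ ∃ L : ℂ, Tendsto (avg T F P x) atTop (𝓝 L)) ∧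
      (∃ (P : MvPolynomial (Fin 2) ℤ) (d : ℕ), P.IsHomogeneous d ∧
        (∀ m n : ℕ, 1 ≤ m → 1 ≤ n → 0 < eval ![(m : ℤ), (n : ℤ)] P) ∧
        ∃ x : Y, ¬ ∃ L : ℂ, Tendsto (avg T F P x) atTop (𝓝 L)) := by
  have main : ∀ (a b : ℕ) (Q P : MvPolynomial (Fin 2) ℤ), 1 ≤ a →
      P = ((C (a : ℤ) * X 0 + C (b : ℤ) * X 1) * Q) ^ 2 →
      (∀ m n : ℕ, 1 ≤ m → 1 ≤ n → 0 < eval ![(m : ℤ), (n : ℤ)] P) →
      ∃ x : H.MP_d352c9_an.X, ¬ ∃ L : ℂ,
        Tendsto (avg H.MP_d352c9_an.T H.MP_d352c9_an.F0 P x) atTop (𝓝 L) := by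
    intro a b Q P ha hP hpos
    refine H.MP_d352c9_an.diverge
      (fun m n => ArithmeticFunction.cardFactors (eval ![(m : ℤ), (n : ℤ)] P).toNat) a b ha ?_
    intro m n hm hn
    have h1 := hpos m n hm hn
    have h2 : eval ![(m : ℤ), (n : ℤ)] P =
        ((((a * m + b * n) * (eval ![(m : ℤ), (n : ℤ)] Q).natAbs) ^ 2 : ℕ) : ℤ) := by
      rw [hP]
      push_cast
      simp [mul_pow]
    have h3 : (eval ![(m : ℤ), (n : ℤ)] Q).natAbs ≠ 0 := by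
      intro h
      rw [h2, h] at h1
      simp at h1
    have h4 : a * m + b * n ≠ 0 := by
      have := Nat.mul_le_mul ha hm
      omega
    simp only [h2, Int.toNat_natCast, ArithmeticFunction.cardFactors_pow,
      ArithmeticFunction.cardFactors_mul h4 h3]
    exact ⟨even_two_mul _, by omega⟩
  refine ⟨H.MP_d352c9_an.X, TopologicalSpace.metrizableSpaceMetric _, inferInstance, inferInstance,
    inferInstance, H.MP_d352c9_an.T, H.MP_d352c9_an.F0, H.MP_d352c9_an.T_cont,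
    ⟨H.MP_d352c9_an.mu0, ⟨inferInstance, H.MP_d352c9_an.mu0_map⟩, fun μ h => ?_⟩, main, ?_⟩
  · have := h.1
    exact H.MP_d352c9_an.unique μ h.2
  · have hp : ∀ m n : ℕ, 1 ≤ m → 1 ≤ n → 0 < eval ![(m : ℤ), (n : ℤ)]
        ((X 0 + X 1) ^ 2 : MvPolynomial (Fin 2) ℤ) := by
      intro m n hm hn
      simp only [map_pow, map_add, eval_X, Matrix.cons_val_zero, Matrix.cons_val_one]
      positivity
    refine ⟨(X 0 + X 1) ^ 2, 1 * 2,
      ((isHomogeneous_X ℤ 0).add (isHomogeneous_X ℤ 1)).pow 2, hp, ?_⟩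
    exact main 1 1 1 _ le_rfl (by simp) hp

end Pool.Agent.Results.MP_d352c9_an.NoLimit
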